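import Pool.Agent.Lib.MP_deef39_co_PW.GrphL
import Pool.Agent.Lib.MP_deef39_co_PW.GrphS

/-! # MP_deef39_co: paths which do not interleave in the cyclic order, combinatorial part -/

set_option autoImplicit false

namespace FIP

open FPW

variable {n : ℕ}

/-- `i` and `j` are consecutive in the cyclic order `0, 1, ..., n - 1` -/
def Side (i j : Fin n) : Prop :=
  i.val + 1 = j.val ∨ j.val + 1 = i.val ∨ (i.val = 0 ∧ j.val + 1 = n) ∨
    (j.val = 0 ∧ i.val + 1 = n)

/-- `c` lies strictly between `a` and `b` in the order `0, 1, ..., n - 1` -/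
def Btw (a b c : Fin n) : Prop :=
  (a.val < c.val ∧ c.val < b.val) ∨ (b.val < c.val ∧ c.val < a.val)

theorem side_symm {a b : Fin n} (h : Side a b) : Side b a := by
  unfold Side at *; omega

theorem vne {a b : Fin n} (h : a ≠ b) : a.val ≠ b.val := fun h' => h (Fin.ext h')

theorem side_btw {a b c d : Fin n} (h : Side c d) (hda : d ≠ a) (hdb : d ≠ b)
    (hb : Btw a b c) : Btw a b d := by
  have h1 := vne hda
  have h2 := vne hdb
  have h3 := a.isLt
  have h4 := b.isLt
  have h5 := c.isLt
  have h6 := d.isLt
  unfold Side Btw at *; omega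

theorem side_btw' {a b c d : Fin n} (h : Side a b) (hda : d ≠ a) (hdb : d ≠ b)
    (hb : Btw a b c) : Btw a b d := by
  have h1 := vne hda
  have h2 := vne hdb
  have h3 := a.isLt
  have h4 := b.isLt
  have h5 := c.isLt
  have h6 := d.isLt
  unfold Side Btw at *; omega

theorem btw_ne {a b c : Fin n} (h : Btw a b c) : c ≠ a ∧ c ≠ b := by
  constructor <;> rintro rfl <;> unfold Btw at h <;> omega

theorem both_sides {a b : Fin n} (hab : a ≠ b) (h : ¬ Side a b) :
    (∃ c, Btw a b c) ∧ ∃ d, d ≠ a ∧ d ≠ b ∧ ¬ Btw a b d := by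
  have h1 := vne hab
  have h3 := a.isLt
  have h4 := b.isLt
  unfold Side at h
  constructor
  · refine ⟨⟨min a.val b.val + 1, by omega⟩, ?_⟩
    unfold Btw
    show (a.val < min a.val b.val + 1 ∧ _) ∨ _
    simp only
    omega
  · by_cases h0 : min a.val b.val = 0
    · refine ⟨⟨n - 1, by omega⟩, ?_, ?_, ?_⟩
      · intro h'; have := congrArg Fin.val h'; simp only at this; omega
      · intro h'; have := congrArg Fin.val h'; simp only at this; omega
      · unfold Btw; simp only; omega
    · refine ⟨⟨0, by omega⟩, ?_, ?_, ?_⟩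
      · intro h'; have := congrArg Fin.val h'; simp only at this; omega
      · intro h'; have := congrArg Fin.val h'; simp only at this; omega
      · unfold Btw; simp only; omega

theorem sep_side {x y z w : Fin n} (hyz : Side y z) (hyw : Side y w) (hzw : z ≠ w)
    (hxy : x ≠ y) (hxz : x ≠ z) (hxw : x ≠ w) : (Btw x y z ∧ ¬ Btw x y w) ∨
      (¬ Btw x y z ∧ Btw x y w) := by
  have h1 := vne hzw
  have h2 := vne hxy
  have h3 := vne hxz
  have h4 := vne hxw
  have h5 := x.isLt
  have h6 := y.isLt
  have h7 := z.isLt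
  have h8 := w.isLt
  unfold Side Btw at *; omega

theorem side_three {y a b c : Fin n} (h1 : Side y a) (h2 : Side y b) (h3 : Side y c) :
    a = b ∨ b = c ∨ a = c := by
  by_contra hcon
  have h4 : a ≠ b ∧ b ≠ c ∧ a ≠ c :=
    ⟨fun h => hcon (Or.inl h), fun h => hcon (Or.inr (Or.inl h)),
      fun h => hcon (Or.inr (Or.inr h))⟩
  have h5 := vne h4.1
  have h6 := vne h4.2.1
  have h7 := vne h4.2.2
  have h8 := y.isLt
  have h9 := a.isLt
  have h10 := b.isLt
  have h11 := c.isLt
  unfold Side at *; omega

theorem side_ne (hn : 3 ≤ n) {y z : Fin n} (h : Side y z) : y ≠ z := by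
  rintro rfl
  have := y.isLt
  unfold Side at h; omega

/-- every vertex has a neighbour on the cycle different from `x` -/
theorem side_other (hn : 3 ≤ n) (z x : Fin n) : ∃ y, Side z y ∧ y ≠ x := by
  have h1 := z.isLt
  have h2 := x.isLt
  obtain ⟨k, hk, hs, hx⟩ : ∃ k : ℕ, k < n ∧ (z.val + 1 = k ∨ k + 1 = z.val ∨
      (z.val = 0 ∧ k + 1 = n) ∨ (k = 0 ∧ z.val + 1 = n)) ∧ k ≠ x.val := by
    by_cases hz : z.val + 1 < n
    · by_cases hx : z.val + 1 = x.val
      · by_cases h0 : z.val = 0
        · exact ⟨n - 1, by omega, by omega, by omega⟩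
        · exact ⟨z.val - 1, by omega, by omega, by omega⟩
      · exact ⟨z.val + 1, by omega, by omega, by omega⟩
    · by_cases hx : x.val = 0
      · exact ⟨z.val - 1, by omega, by omega, by omega⟩
      · exact ⟨0, by omega, by omega, by omega⟩
  exact ⟨⟨k, hk⟩, hs, fun h' => hx (congrArg Fin.val h')⟩

/-- a property which is passed along the edges of the list is constant on it -/
theorem const_of {α : Type*} {Q : α → Prop} {m : List α}
    (h : ∀ x y, Ed m x y → Q x → Q y) {x y : α} (hx : x ∈ m) (hy : y ∈ m) (hq : Q x) :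
    Q y := by
  induction m generalizing x y with
  | nil => simp at hx
  | cons a l ih =>
    cases l with
    | nil =>
      simp only [List.mem_singleton] at hx hy
      rw [hy, ← hx]; exact hq
    | cons b l =>
      have ih' := fun {x y : α} => ih (x := x) (y := y)
        (fun x y hxy => h x y (Or.inr (Or.inr hxy)))
      have hab : Q a → Q b := h a b (Or.inl ⟨rfl, rfl⟩)
      have hba : Q b → Q a := h b a (Or.inr (Or.inl ⟨rfl, rfl⟩))
      rcases List.mem_cons.1 hx with hxa | hx'
      · rw [hxa] at hq
        rcases List.mem_cons.1 hy with hya | hy'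
        · rw [hya]; exact hq
        · exact ih' (by simp) hy' (hab hq)
      · rcases List.mem_cons.1 hy with hya | hy'
        · rw [hya]; exact hba (ih' hx' (by simp) hq)
        · exact ih' hx' hy' hq

/-- a spanning path without interleaving edges -/
structure IP (l : List (Fin n)) : Prop where
  nodup : l.Nodup
  full : ∀ v, v ∈ l
  ni : ∀ a b c d, Ed l a b → Ed l c d → Btw a b c → d ≠ a → d ≠ b → Btw a b d

theorem ed_left {α : Type*} {A B : List α} {x y : α} (h : Ed A x y) : Ed (A ++ B) x y := by
  cases B with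
  | nil => rw [List.append_nil]; exact h
  | cons b B =>
    rw [ed_mid]
    left
    rcases List.eq_nil_or_concat A with rfl | ⟨A', a, rfl⟩
    · exact h.elim
    · rw [List.concat_eq_append] at h ⊢
      rw [ed_snoc]
      exact Or.inl h

theorem ed_right {α : Type*} {A B : List α} {x y : α} (h : Ed B x y) : Ed (A ++ B) x y := by
  rw [← ed_reverse, List.reverse_append]
  exact ed_left (ed_reverse.2 h)

/-- the vertices before a chord lie on one side, and so do the vertices behind it -/
theorem left_const {l A B : List (Fin n)} {a b : Fin n} (h : IP l)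
    (hl : l = A ++ a :: b :: B) {x y : Fin n} (hx : x ∈ A) (hy : y ∈ A) (hb : Btw a b x) :
    Btw a b y := by
  have hn := h.nodup
  rw [hl] at hn
  refine const_of (Q := fun t => Btw a b t) (m := A) ?_ hx hy hb
  intro c d hcd hc
  have h1 : Ed l a b := by rw [hl]; exact ed_of_split
  have h2 : Ed l c d := by rw [hl]; exact ed_left hcd
  have h3 : d ∈ A := ed_mem' hcd
  refine h.ni a b c d h1 h2 hc ?_ ?_
  · intro h4
    exact (List.nodup_append.1 hn).2.2 d h3 a (by simp) h4
  · intro h4
    exact (List.nodup_append.1 hn).2.2 d h3 b (by simp) h4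

theorem right_const {l A B : List (Fin n)} {a b : Fin n} (h : IP l)
    (hl : l = A ++ a :: b :: B) {x y : Fin n} (hx : x ∈ B) (hy : y ∈ B) (hb : Btw a b x) :
    Btw a b y := by
  have hn := h.nodup
  rw [hl] at hn
  have hn2 := (List.nodup_append.1 hn).2.1
  refine const_of (Q := fun t => Btw a b t) (m := B) ?_ hx hy hb
  intro c d hcd hc
  have h1 : Ed l a b := by rw [hl]; exact ed_of_split
  have h2 : Ed l c d := by
    rw [hl]
    exact ed_right (A := A) (ed_right (A := [a, b]) hcd)
  have h3 : d ∈ B := ed_mem' hcd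
  refine h.ni a b c d h1 h2 hc ?_ ?_
  · rintro rfl
    simp [h3] at hn2
  · rintro rfl
    simp [h3] at hn2

theorem mem_cases {l A B : List (Fin n)} {a b : Fin n} (h : IP l)
    (hl : l = A ++ a :: b :: B) {x : Fin n} (h1 : x ≠ a) (h2 : x ≠ b) : x ∈ A ∨ x ∈ B := by
  have h3 := h.full x
  rw [hl] at h3
  simp only [List.mem_append, List.mem_cons] at h3
  rcases h3 with h3 | h3 | h3 | h3
  · exact Or.inl h3
  · exact absurd h3 h1
  · exact absurd h3 h2
  · exact Or.inr h3

/-- a chord is not the first and not the last edge; the two parts lie on different sides -/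
theorem chord_parts {l A B : List (Fin n)} {a b : Fin n} (h : IP l)
    (hl : l = A ++ a :: b :: B) (hs : ¬ Side a b) :
    ∀ x ∈ A, ∀ y ∈ B, ¬ (Btw a b x ↔ Btw a b y) := by
  have hn := h.nodup
  have hab : a ≠ b := ed_ne hn (by rw [hl]; exact ed_of_split)
  obtain ⟨⟨c, hc⟩, d, hda, hdb, hd⟩ := both_sides hab hs
  obtain ⟨hca, hcb⟩ := btw_ne hc
  intro x hx y hy hiff
  rcases mem_cases h hl hca hcb with hcA | hcB
  · rcases mem_cases h hl hda hdb with hdA | hdB
    · exact hd (left_const h hl hcA hdA hc)
    · exact hd (right_const h hl hy hdB (hiff.1 (left_const h hl hcA hx hc)))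
  · rcases mem_cases h hl hda hdb with hdA | hdB
    · exact hd (left_const h hl hx hdA (hiff.2 (right_const h hl hcB hy hc)))
    · exact hd (right_const h hl hcB hdB hc)

theorem chord_left {l A B : List (Fin n)} {a b : Fin n} (h : IP l)
    (hl : l = A ++ a :: b :: B) (hs : ¬ Side a b) : A ≠ [] := by
  rintro rfl
  have hn := h.nodup
  have hab : a ≠ b := ed_ne hn (by rw [hl]; exact ed_of_split)
  obtain ⟨⟨c, hc⟩, d, hda, hdb, hd⟩ := both_sides hab hs
  obtain ⟨hca, hcb⟩ := btw_ne hc
  rcases mem_cases h hl hca hcb with hcA | hcB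
  · simp at hcA
  · rcases mem_cases h hl hda hdb with hdA | hdB
    · simp at hdA
    · exact hd (right_const h hl hcB hdB hc)

theorem chord_right {l A B : List (Fin n)} {a b : Fin n} (h : IP l)
    (hl : l = A ++ a :: b :: B) (hs : ¬ Side a b) : B ≠ [] := by
  rintro rfl
  have hn := h.nodup
  have hab : a ≠ b := ed_ne hn (by rw [hl]; exact ed_of_split)
  obtain ⟨⟨c, hc⟩, d, hda, hdb, hd⟩ := both_sides hab hs
  obtain ⟨hca, hcb⟩ := btw_ne hc
  rcases mem_cases h hl hca hcb with hcA | hcB
  · rcases mem_cases h hl hda hdb with hdA | hdB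
    · exact hd (left_const h hl hcA hdA hc)
    · simp at hdB
  · simp at hcB

/-- the end `z` has the cycle neighbour `y`, and the path edge from `y` towards `z` is a side:
then all edges are sides -/
theorem key {l A M : List (Fin n)} {y y' z : Fin n} (h : IP l)
    (hl : l = A ++ y :: y' :: (M ++ [z])) (hs : Side z y) (hs' : Side y y') :
    ∀ a b, Ed l a b → Side a b := by
  have hn := h.nodup
  have hn1 : (y :: y' :: (M ++ [z])).Nodup := by
    rw [hl] at hn; exact (List.nodup_append.1 hn).2.1
  have hzy' : z ≠ y' := by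
    rintro rfl
    simp at hn1
  rcases List.eq_nil_or_concat A with hA | ⟨A', x, hA⟩
  · have main : ∀ A1 B1 a b, l = A1 ++ a :: b :: B1 → Side a b := by
      intro A1 B1 a b hl1
      by_contra hns
      have h1 := chord_left h hl1 hns
      have h2 := chord_right h hl1 hns
      have hab : a ≠ b := ed_ne hn (by rw [hl1]; exact ed_of_split)
      have hy : y ∈ A1 := by
        cases A1 with
        | nil => exact absurd rfl h1
        | cons t A1 =>
          rw [hl, hA] at hl1
          simp only [List.nil_append, List.cons_append, List.cons.injEq] at hl1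
          rw [hl1.1]; simp
      have hz : z ∈ B1 := by
        rcases List.eq_nil_or_concat B1 with h3 | ⟨B2, t, h3⟩
        · exact absurd h3 h2
        · have h4 : (A ++ y :: y' :: M) ++ [z] = (A1 ++ a :: b :: B2) ++ [t] := by
            rw [h3, List.concat_eq_append] at hl1
            rw [hl] at hl1
            simpa using hl1
          have h5 := List.append_inj_right' h4 rfl
          simp only [List.cons.injEq, and_true] at h5
          rw [h3, h5, List.concat_eq_append]; simp
      have hnd : (A1 ++ a :: b :: B1).Nodup := by rw [← hl1]; exact hn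
      have hya : y ≠ a := fun h4 =>
        (List.nodup_append.1 hnd).2.2 y hy a (by simp) h4
      have hyb : y ≠ b := fun h4 =>
        (List.nodup_append.1 hnd).2.2 y hy b (by simp) h4
      have hnd2 := (List.nodup_append.1 hnd).2.1
      have hza : z ≠ a := by
        rintro rfl
        simp [hz] at hnd2
      have hzb : z ≠ b := by
        rintro rfl
        simp [hz] at hnd2
      exact chord_parts h hl1 hns y hy z hz
        ⟨fun h6 => side_btw (side_symm hs) hza hzb h6, fun h6 => side_btw hs hya hyb h6⟩
    intro a b hab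
    obtain ⟨A1, B1, h1 | h1⟩ := ed_split hab
    · exact main _ _ _ _ h1
    · exact side_symm (main _ _ _ _ h1)
  · exfalso
    rw [List.concat_eq_append] at hA
    have hl2 : l = A' ++ x :: y :: (y' :: (M ++ [z])) := by
      rw [hl, hA]; simp
    have hn2 : (x :: y :: (y' :: (M ++ [z]))).Nodup := by
      rw [hl2] at hn; exact (List.nodup_append.1 hn).2.1
    have hxy : x ≠ y := by rintro rfl; simp at hn2
    have hxz : x ≠ z := by rintro rfl; simp at hn2
    have hxy' : x ≠ y' := by rintro rfl; simp at hn2
    have hz : z ∈ y' :: (M ++ [z]) := by simp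
    have hy' : y' ∈ y' :: (M ++ [z]) := by simp
    rcases sep_side (side_symm hs) hs' hzy' hxy hxz hxy' with ⟨h1, h2⟩ | ⟨h1, h2⟩
    · exact h2 (right_const h hl2 hz hy' h1)
    · exact h1 (right_const h hl2 hy' hz h2)

end FIP
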