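import Pool.Agent.Lib.MP_deef39_co_IP.Comb
import Pool.Agent.Lib.MP_deef39_co_PW.Seg

/-! # MP_deef39_co: paths which do not interleave in the cyclic order, flips -/

set_option autoImplicit false

namespace FIP

open FPW

variable {n : ℕ}

open Classical in
/-- number of edges of the path which are not sides -/
noncomputable def nc : List (Fin n) → ℕ
  | a :: b :: l => (if Side a b then 0 else 1) + nc (b :: l)
  | [_] => 0
  | [] => 0

open Classical in
theorem nc_cons2 {a b : Fin n} {l : List (Fin n)} :
    nc (a :: b :: l) = (if Side a b then 0 else 1) + nc (b :: l) := rfl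

theorem nc_single {a : Fin n} : nc [a] = 0 := rfl

theorem nc_mid {A B : List (Fin n)} {v : Fin n} :
    nc (A ++ v :: B) = nc (A ++ [v]) + nc (v :: B) := by
  induction A with
  | nil => simp [nc_single]
  | cons a A ih =>
    cases A with
    | nil =>
      simp only [List.cons_append, List.nil_append, nc_cons2, nc_single]
      omega
    | cons b A =>
      simp only [List.cons_append, nc_cons2] at ih ⊢
      rw [ih]
      omega

theorem nc_reverse {l : List (Fin n)} : nc l.reverse = nc l := by
  classical
  induction l with
  | nil => rfl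
  | cons a l ih =>
    cases l with
    | nil => rfl
    | cons b l =>
      have h1 : (a :: b :: l).reverse = l.reverse ++ b :: [a] := by simp
      have h2 : (b :: l).reverse = l.reverse ++ [b] := by simp
      rw [h1, nc_mid, ← h2, ih, nc_cons2, nc_cons2, nc_single]
      by_cases h : Side a b
      · have h' := side_symm h
        simp [h, h']
      · have h' : ¬ Side b a := fun h' => h (side_symm h')
        simp [h, h']
        omega

theorem nc_zero {l : List (Fin n)} (h : ∀ a b, Ed l a b → Side a b) : nc l = 0 := by
  classical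
  induction l with
  | nil => rfl
  | cons a l ih =>
    cases l with
    | nil => rfl
    | cons b l =>
      rw [nc_cons2, ih (fun x y hxy => h x y (Or.inr (Or.inr hxy))),
        if_pos (h a b (Or.inl ⟨rfl, rfl⟩))]

theorem side_of_nc {l : List (Fin n)} (h : nc l = 0) : ∀ a b, Ed l a b → Side a b := by
  classical
  induction l with
  | nil => intro a b hab; exact hab.elim
  | cons a l ih =>
    cases l with
    | nil => intro a b hab; exact hab.elim
    | cons b l =>
      rw [nc_cons2] at h
      have h1 : nc (b :: l) = 0 := by omega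
      have h2 : Side a b := by
        by_contra h3
        rw [if_neg h3] at h
        omega
      rintro x y (⟨rfl, rfl⟩ | ⟨rfl, rfl⟩ | hxy)
      · exact h2
      · exact side_symm h2
      · exact ih h1 x y hxy

theorem nc_le (l : List (Fin n)) : nc l ≤ l.length - 1 := by
  classical
  induction l with
  | nil => exact le_rfl
  | cons a l ih =>
    cases l with
    | nil => exact le_rfl
    | cons b l =>
      rw [nc_cons2]
      simp only [List.length_cons] at ih ⊢
      by_cases h : Side a b
      · rw [if_pos h]; omega
      · rw [if_neg h]; omega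

theorem ip_length {l : List (Fin n)} (h : IP l) : l.length = n := by
  have h1 := h.nodup.length_le_card
  rw [Fintype.card_fin] at h1
  have h2 : (Finset.univ : Finset (Fin n)) ⊆ l.toFinset := fun v _ => by simp [h.full v]
  have h3 := Finset.card_le_card h2
  rw [Finset.card_univ, Fintype.card_fin] at h3
  have h4 := l.toFinset_card_le
  omega

/-- the last two entries of a list -/
theorem last_two {α : Type*} {l : List α} (h : 2 ≤ l.length) : ∃ L x z, l = L ++ [x, z] := by
  rcases List.eq_nil_or_concat l with rfl | ⟨L1, z, rfl⟩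
  · simp at h
  · rcases List.eq_nil_or_concat L1 with rfl | ⟨L, x, rfl⟩
    · simp at h
    · exact ⟨L, x, z, by simp⟩

theorem nc_bound (hn : 3 ≤ n) {l : List (Fin n)} (h : IP l) : nc l ≤ n - 3 := by
  classical
  have hlen := ip_length h
  cases l with
  | nil => simp at hlen; omega
  | cons x m =>
    cases m with
    | nil => simp at hlen; omega
    | cons y C =>
      have h1 : Side x y := by
        by_contra h2
        exact chord_left h (A := []) (B := C) rfl h2 rfl
      have h3 : 2 ≤ (y :: C).length := by
        simp only [List.length_cons] at hlen ⊢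
        omega
      obtain ⟨D, w, z, hD⟩ := last_two h3
      have h4 : Side w z := by
        by_contra h2
        exact chord_right h (A := x :: D) (B := []) (by rw [hD]; simp) h2 rfl
      have h5 : D ++ [w, z] = D ++ w :: [z] := rfl
      have h6 := nc_le (D ++ [w])
      have h7 : (y :: C).length = D.length + 2 := by rw [hD]; simp
      rw [nc_cons2, if_pos h1, hD, h5, nc_mid, nc_cons2, if_pos h4, nc_single]
      simp only [List.length_append, List.length_cons, List.length_nil] at h6 h7 hlen ⊢
      omega

/-- one rotation which replaces a chord by a side -/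
theorem step (hn : 3 ≤ n) {l : List (Fin n)} (h : IP l) (hk : nc l ≠ 0) :
    ∃ l' v z, RotL v z l l' ∧ IP l' ∧ nc l' + 1 = nc l ∧
      ∀ a b, Ed l' a b → Ed l a b ∨ Side a b := by
  classical
  have hlen := ip_length h
  obtain ⟨L, x, z, hL⟩ := last_two (l := l) (by omega)
  obtain ⟨y, hzy, hyx⟩ := side_other hn z x
  have hyz : y ≠ z := (side_ne hn hzy).symm
  have hyL : y ∈ L := by
    have h1 := h.full y
    rw [hL] at h1
    simp only [List.mem_append, List.mem_cons, List.not_mem_nil, or_false] at h1
    rcases h1 with h1 | h1 | h1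
    · exact h1
    · exact absurd h1 hyx
    · exact absurd h1 hyz
  obtain ⟨A, B0, hB0⟩ := List.append_of_mem hyL
  obtain ⟨y', M, hM⟩ : ∃ y' M, B0 ++ [x] = y' :: M := by
    cases B0 with
    | nil => exact ⟨x, [], rfl⟩
    | cons t B0 => exact ⟨t, B0 ++ [x], rfl⟩
  have hl : l = A ++ y :: y' :: (M ++ [z]) := by
    have h1 : y' :: (M ++ [z]) = (y' :: M) ++ [z] := rfl
    rw [hL, hB0, h1, ← hM]
    simp
  have hns : ¬ Side y y' := fun h1 => hk (nc_zero (key h hl hzy h1))
  have hrev : z :: (y' :: M).reverse = (y' :: (M ++ [z])).reverse := by simp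
  have hsub : ∀ a b, Ed (A ++ y :: z :: (y' :: M).reverse) a b → Ed l a b ∨
      (a = y ∧ b = z) ∨ (a = z ∧ b = y) := by
    intro a b hab
    rw [ed_mid, ed_cons2, hrev, ed_reverse] at hab
    rcases hab with hab | hab | hab | hab
    · left; rw [hl, ed_mid]; exact Or.inl hab
    · exact Or.inr (Or.inl hab)
    · exact Or.inr (Or.inr hab)
    · left; rw [hl, ed_mid]; exact Or.inr (Or.inr (Or.inr hab))
  have hside : ∀ a b, Ed (A ++ y :: z :: (y' :: M).reverse) a b → Ed l a b ∨ Side a b := by
    intro a b hab
    rcases hsub a b hab with h1 | ⟨rfl, rfl⟩ | ⟨rfl, rfl⟩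
    · exact Or.inl h1
    · exact Or.inr (side_symm hzy)
    · exact Or.inr hzy
  have hperm : (A ++ y :: z :: (y' :: M).reverse).Perm l := by
    rw [hl]
    apply List.Perm.append_left
    apply List.Perm.cons
    rw [hrev]
    exact List.reverse_perm _
  refine ⟨A ++ y :: z :: (y' :: M).reverse, y, z, ⟨A, y' :: M, ?_, rfl⟩, ?_, ?_, hside⟩
  · rw [hl]; rfl
  · refine ⟨hperm.nodup_iff.2 h.nodup, fun v => hperm.mem_iff.2 (h.full v), ?_⟩
    intro a b c d hab hcd hb hda hdb
    rcases hside a b hab with h1 | h1
    · rcases hside c d hcd with h2 | h2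
      · exact h.ni a b c d h1 h2 hb hda hdb
      · exact side_btw h2 hda hdb hb
    · exact side_btw' h1 hda hdb hb
  · have e1 : nc l = nc (A ++ [y]) + (1 + nc (y' :: (M ++ [z]))) := by
      rw [hl, nc_mid, nc_cons2, if_neg hns]
    have e2 : nc (A ++ y :: z :: (y' :: M).reverse) =
        nc (A ++ [y]) + (0 + nc (y' :: (M ++ [z]))) := by
      rw [nc_mid, nc_cons2, if_pos (side_symm hzy), hrev, nc_reverse]
    rw [e1, e2]
    omega

/-- there is a chain of `k` steps of the relation `R` from `a` to `b` -/
def Steps {α : Type*} (R : α → α → Prop) : ℕ → α → α → Prop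
  | 0, a, b => a = b
  | k + 1, a, b => ∃ c, R a c ∧ Steps R k c b

theorem steps_trans {α : Type*} {R : α → α → Prop} {j k : ℕ} {a b c : α}
    (h : Steps R j a b) (h' : Steps R k b c) : Steps R (j + k) a c := by
  induction j generalizing a with
  | zero =>
    have h1 : a = b := h
    rw [h1, Nat.zero_add]; exact h'
  | succ j ih =>
    obtain ⟨d, hd, hs⟩ := h
    rw [Nat.succ_add]
    exact ⟨d, hd, ih hs⟩

theorem steps_symm {α : Type*} {R : α → α → Prop} (hR : ∀ a b, R a b → R b a) {k : ℕ}
    {a b : α} (h : Steps R k a b) : Steps R k b a := by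
  induction k generalizing a with
  | zero => exact Eq.symm h
  | succ k ih =>
    obtain ⟨c, hc, hs⟩ := h
    exact steps_trans (ih hs) (k := 1) ⟨a, hR _ _ hc, rfl⟩

end FIP
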